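import Mathlib
import Pool.Agent.H52R3.NotMax

open MeasureTheory Set Filter Topology
open scoped ContDiff

namespace Pool.Agent.Results.MP_73f72c_gt.NotAttained

/-- Euclidean three-space. -/
abbrev E3 : Type := EuclideanSpace ℝ (Fin 3)

/-- The `i`-th partial derivative of `f` at `x`. -/
noncomputable def pd (i : Fin 3) (f : E3 → ℝ) (x : E3) : ℝ :=
  fderiv ℝ f x (EuclideanSpace.single i 1)

/-- A field of `3 × 3` matrices on three-space: the components `g_ij` of a metric in Cartesian
coordinates. Only the values on the punctured space `ℝ³ ∖ {0}` matter below. -/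
abbrev Field : Type := E3 → Matrix (Fin 3) (Fin 3) ℝ

/-- The Christoffel symbol `Γ^k_ij` of `g`. -/
noncomputable def christoffel (g : Field) (k i j : Fin 3) (x : E3) : ℝ :=
  (1 / 2) * ∑ l, (g x)⁻¹ k l * (pd i (fun y => g y j l) x + pd j (fun y => g y i l) x
    - pd l (fun y => g y i j) x)

/-- The component `Ric_ij = ∂_k Γ^k_ij - ∂_j Γ^k_ik + Γ^k_kl Γ^l_ij - Γ^k_jl Γ^l_ik` of the Ricci
tensor of `g`. -/
noncomputable def ricci (g : Field) (i j : Fin 3) (x : E3) : ℝ :=
  ∑ k, (pd k (christoffel g k i j) x - pd j (christoffel g k i k) x)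
    + ∑ k, ∑ l, (christoffel g k k l x * christoffel g l i j x
      - christoffel g k j l x * christoffel g l i k x)

/-- The scalar curvature `R = g^ij Ric_ij`. -/
noncomputable def scalar (g : Field) (x : E3) : ℝ := ∑ i, ∑ j, (g x)⁻¹ i j * ricci g i j x

/-- The Schouten tensor `S = Ric - (R/4) g` (dimension three). -/
noncomputable def schouten (g : Field) (x : E3) : Matrix (Fin 3) (Fin 3) ℝ :=
  Matrix.of fun i j => ricci g i j x - scalar g x / 4 * g x i j

/-- `σ₁(g)`: the first elementary symmetric function of the eigenvalues of `g⁻¹ S`, its trace. -/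
noncomputable def sigma1 (g : Field) (x : E3) : ℝ := ((g x)⁻¹ * schouten g x).trace

/-- `σ₂(g)`: the second elementary symmetric function of the eigenvalues of `g⁻¹ S`, which is
`((tr g⁻¹S)² - tr (g⁻¹S)²)/2`. -/
noncomputable def sigma2 (g : Field) (x : E3) : ℝ :=
  (((g x)⁻¹ * schouten g x).trace ^ 2
    - (((g x)⁻¹ * schouten g x) * ((g x)⁻¹ * schouten g x)).trace) / 2

/-- For `lam > 1` let `M` be the closed 3-manifold `(ℝ³ ∖ {0}) / (x ∼ lam x)`, which is
diffeomorphic to `S² × S¹`. Smooth functions on `M` are the smooth functions on `ℝ³ ∖ {0}` that are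
invariant under `x ↦ lam x`. -/
structure IsSmoothOnM (lam : ℝ) (u : E3 → ℝ) : Prop where
  smooth : ContDiffOn ℝ ∞ u {0}ᶜ
  invariant : ∀ x ≠ 0, u (lam • x) = u x

/-- Riemannian metrics on `M = (ℝ³ ∖ {0}) / (x ∼ lam x)` are the smooth Riemannian metrics on
`ℝ³ ∖ {0}` for which `x ↦ lam x` is an isometry. -/
structure IsMetricOnM (lam : ℝ) (g : Field) : Prop where
  smooth : ∀ i j, ContDiffOn ℝ ∞ (fun x => g x i j) {0}ᶜ
  posDef : ∀ x ≠ 0, (g x).PosDef
  invariant : ∀ x ≠ 0, lam ^ 2 • g (lam • x) = g x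

/-- The integral over `M` of the function `s` against the volume measure of `g`: the integral
of `s √(det g)` over the fundamental domain `1 ≤ |x| < lam`. -/
noncomputable def integralM (lam : ℝ) (g : Field) (s : E3 → ℝ) : ℝ :=
  ∫ x in {x : E3 | 1 ≤ ‖x‖ ∧ ‖x‖ < lam}, s x * Real.sqrt (g x).det

/-- The functional `ℰ(g) = vol(g) ∫ σ₂(g) dv / (∫ σ₁(g) dv)²` on metrics of `M`. -/
noncomputable def functional (lam : ℝ) (g : Field) : ℝ :=
  integralM lam g (fun _ => 1) * integralM lam g (sigma2 g) / (integralM lam g (sigma1 g)) ^ 2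

/-- The conformal metric `e^{-2u} g₀`. -/
noncomputable def conf (u : E3 → ℝ) (g₀ : Field) : Field := fun x => Real.exp (-2 * u x) • g₀ x

/-- `𝒞₁([g₀])`: the metrics `e^{-2u} g₀`, `u` smooth on `M`, with `σ₁ > 0` everywhere. -/
def classC1 (lam : ℝ) (g₀ : Field) : Set Field :=
  {g | ∃ u : E3 → ℝ, IsSmoothOnM lam u ∧ g = conf u g₀ ∧ ∀ x ≠ 0, 0 < sigma1 g x}

/-- `Ỹ([g₀])`: the supremum of `ℰ` over `𝒞₁([g₀])`. -/
noncomputable def Ytilde (lam : ℝ) (g₀ : Field) : ℝ := sSup (functional lam '' classC1 lam g₀)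

/-- The metric `|x|⁻² |dx|²`, the product metric of `S² × S¹` with round `S²` of radius `1` and a
circle of length `log lam`. -/
noncomputable def product : Field := fun x => (‖x‖ ^ 2)⁻¹ • (1 : Matrix (Fin 3) (Fin 3) ℝ)

section lemmas

open Pool.Agent.H52R3 (SX HasPd lap gdot Smat s1 s2 Ssq L Inv QI Ef Vf S1f S2f fund
  ne_zero_of_mem_fund)

lemma pd_eq : (pd : Fin 3 → (E3 → ℝ) → E3 → ℝ) = Pool.Agent.H52R3.pd := rfl

variable {g : Field} {f : E3 → ℝ}

/-- `g = e^{-2f} δ` on the punctured space -/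
def CF (g : Field) (f : E3 → ℝ) : Prop :=
  ∀ y ≠ 0, g y = Real.exp (-2 * f y) • (1 : Matrix (Fin 3) (Fin 3) ℝ)

lemma inv_CF (h : CF g f) {x : E3} (hx : x ≠ 0) :
    (g x)⁻¹ = Real.exp (2 * f x) • (1 : Matrix (Fin 3) (Fin 3) ℝ) := by
  apply Matrix.inv_eq_right_inv
  rw [h x hx, smul_mul_smul_comm, ← Real.exp_add, mul_one]
  have : -2 * f x + 2 * f x = 0 := by ring
  rw [this, Real.exp_zero, one_smul]

lemma pd_entry (h : CF g f) (hf : SX f) {x : E3} (hx : x ≠ 0) (i j l : Fin 3) :
    pd i (fun y => g y j l) x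
      = (if j = l then 1 else 0) * (-2 * Real.exp (-2 * f x) * Pool.Agent.H52R3.pd i f x) := by
  rw [pd_eq, Pool.Agent.H52R3.pd_congr_X i hx
    (g := fun y => (if j = l then (1:ℝ) else 0) * Real.exp (-2 * f y))]
  · have c : ∀ c : ℝ, HasPd i (fun _ => c) 0 x := HasPd.const
    have hh := (c (if j = l then 1 else 0)).mul (((c (-2)).mul (hf.hasPd hx i)).exp)
    have hS : SX (fun y => (if j = l then (1:ℝ) else 0) * Real.exp (-2 * f y)) :=
      (SX.const _).mul (((SX.const _).mul hf).exp)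
    rw [hh.pd_eq (hS.differentiableAt hx)]
    ring
  · intro y hy
    rw [h y hy]
    simp [Matrix.one_apply]

lemma christoffel_CF (h : CF g f) (hf : SX f) {x : E3} (hx : x ≠ 0) (k i j : Fin 3) :
    christoffel g k i j x = -(Pool.Agent.H52R3.pd i f x * (if j = k then 1 else 0)
      + Pool.Agent.H52R3.pd j f x * (if i = k then 1 else 0)
      - Pool.Agent.H52R3.pd k f x * (if i = j then 1 else 0)) := by
  unfold christoffel
  have e : ∀ l, (g x)⁻¹ k l = if k = l then Real.exp (2 * f x) else 0 := by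
    intro l
    rw [inv_CF h hx]
    simp [Matrix.one_apply]
  have e2 : Real.exp (2 * f x) * Real.exp (-2 * f x) = 1 := by
    rw [← Real.exp_add]; simp
  rw [Finset.sum_eq_single k]
  · rw [e k, if_pos rfl, pd_entry h hf hx, pd_entry h hf hx, pd_entry h hf hx]
    linear_combination (-(Pool.Agent.H52R3.pd i f x * (if j = k then 1 else 0)
      + Pool.Agent.H52R3.pd j f x * (if i = k then 1 else 0)
      - Pool.Agent.H52R3.pd k f x * (if i = j then 1 else 0))) * e2
  · intro b _ hb
    rw [e b, if_neg hb.symm, zero_mul]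
  · simp

lemma pd_christoffel (h : CF g f) (hf : SX f) {x : E3} (hx : x ≠ 0) (m k i j : Fin 3) :
    pd m (christoffel g k i j) x
      = -(Pool.Agent.H52R3.pd m (Pool.Agent.H52R3.pd i f) x * (if j = k then 1 else 0)
      + Pool.Agent.H52R3.pd m (Pool.Agent.H52R3.pd j f) x * (if i = k then 1 else 0)
      - Pool.Agent.H52R3.pd m (Pool.Agent.H52R3.pd k f) x * (if i = j then 1 else 0)) := by
  rw [pd_eq, Pool.Agent.H52R3.pd_congr_X m hx (fun y hy => christoffel_CF h hf hy k i j)]
  have c : ∀ c : ℝ, HasPd m (fun _ => c) 0 x := HasPd.const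
  have hh := (((((hf.pd i).hasPd hx m).mul (c (if j = k then 1 else 0))).add
    (((hf.pd j).hasPd hx m).mul (c (if i = k then 1 else 0)))).sub
    (((hf.pd k).hasPd hx m).mul (c (if i = j then 1 else 0)))).neg
  have hS : SX (fun y => -(Pool.Agent.H52R3.pd i f y * (if j = k then 1 else 0)
      + Pool.Agent.H52R3.pd j f y * (if i = k then 1 else 0)
      - Pool.Agent.H52R3.pd k f y * (if i = j then 1 else 0))) :=
    ((((hf.pd i).mul (SX.const _)).add ((hf.pd j).mul (SX.const _))).sub
      ((hf.pd k).mul (SX.const _))).neg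
  rw [hh.pd_eq (hS.differentiableAt hx)]
  ring

lemma ricci_CF (h : CF g f) (hf : SX f) {x : E3} (hx : x ≠ 0) (i j : Fin 3) :
    ricci g i j x = Pool.Agent.H52R3.pd i (Pool.Agent.H52R3.pd j f) x
      + Pool.Agent.H52R3.pd i f x * Pool.Agent.H52R3.pd j f x
      + (lap f x - gdot f f x) * (if i = j then 1 else 0) := by
  have a01 := Pool.Agent.H52R3.pd_comm hf hx 1 0
  have a02 := Pool.Agent.H52R3.pd_comm hf hx 2 0
  have a12 := Pool.Agent.H52R3.pd_comm hf hx 2 1
  unfold ricci
  simp only [pd_christoffel h hf hx, christoffel_CF h hf hx, Fin.sum_univ_three, lap, gdot]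
  fin_cases i <;> fin_cases j <;>
    simp [a01, a02, a12] <;> ring

lemma scalar_CF (h : CF g f) (hf : SX f) {x : E3} (hx : x ≠ 0) :
    scalar g x = Real.exp (2 * f x) * (4 * lap f x - 2 * gdot f f x) := by
  unfold scalar
  have e : ∀ k l, (g x)⁻¹ k l = if k = l then Real.exp (2 * f x) else 0 := by
    intro k l
    rw [inv_CF h hx]
    simp [Matrix.one_apply]
  simp only [e, ricci_CF h hf hx, Fin.sum_univ_three, lap, gdot]
  simp
  ring

lemma schouten_CF (h : CF g f) (hf : SX f) {x : E3} (hx : x ≠ 0) (i j : Fin 3) :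
    schouten g x i j = Smat f i j x := by
  unfold schouten
  rw [Matrix.of_apply, ricci_CF h hf hx, scalar_CF h hf hx, h x hx]
  have e2 : Real.exp (2 * f x) * Real.exp (-2 * f x) = 1 := by
    rw [← Real.exp_add]; simp
  simp only [Matrix.smul_apply, Matrix.one_apply, smul_eq_mul, Smat]
  linear_combination (-((4 * lap f x - 2 * gdot f f x) / 4 * (if i = j then 1 else 0))) * e2

lemma mat_CF (h : CF g f) (hf : SX f) {x : E3} (hx : x ≠ 0) :
    (g x)⁻¹ * schouten g x = Real.exp (2 * f x) • Matrix.of (fun i j => Smat f i j x) := by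
  rw [inv_CF h hx, Matrix.smul_mul, one_mul]
  congr 1
  ext i j
  rw [schouten_CF h hf hx, Matrix.of_apply]

lemma sigma1_CF (h : CF g f) (hf : SX f) {x : E3} (hx : x ≠ 0) :
    sigma1 g x = Real.exp (2 * f x) * s1 f x := by
  unfold sigma1
  rw [mat_CF h hf hx, Matrix.trace_smul, Matrix.trace_fin_three, ← Pool.Agent.H52R3.trace_Smat f x]
  simp

lemma sigma2_CF (h : CF g f) (hf : SX f) {x : E3} (hx : x ≠ 0) :
    sigma2 g x = Real.exp (4 * f x) * s2 f x := by
  have hsig := sigma1_CF h hf hx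
  unfold sigma1 at hsig
  unfold sigma2
  rw [hsig, mat_CF h hf hx, Matrix.smul_mul, Matrix.mul_smul, smul_smul, Matrix.trace_smul,
    Matrix.trace_fin_three]
  simp only [Matrix.mul_apply, Fin.sum_univ_three, Matrix.of_apply, smul_eq_mul]
  have e : Real.exp (4 * f x) = Real.exp (2 * f x) * Real.exp (2 * f x) := by
    rw [← Real.exp_add]; congr 1; ring
  have a01 := Pool.Agent.H52R3.pd_comm hf hx 1 0
  have a02 := Pool.Agent.H52R3.pd_comm hf hx 2 0
  have a12 := Pool.Agent.H52R3.pd_comm hf hx 2 1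
  have s10 : Smat f 1 0 x = Smat f 0 1 x := by simp only [Smat, a01]; simp; ring
  have s20 : Smat f 2 0 x = Smat f 0 2 x := by simp only [Smat, a02]; simp; ring
  have s21 : Smat f 2 1 x = Smat f 1 2 x := by simp only [Smat, a12]; simp; ring
  rw [e]
  simp only [s2, Ssq, s10, s20, s21]
  ring

lemma sqrt_det_CF (h : CF g f) {x : E3} (hx : x ≠ 0) :
    Real.sqrt (g x).det = Real.exp (-(3 * f x)) := by
  rw [h x hx, Matrix.det_smul, Matrix.det_one, mul_one, Fintype.card_fin]
  have : Real.exp (-2 * f x) ^ 3 = Real.exp (-(3 * f x)) ^ 2 := by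
    rw [← Real.exp_nat_mul, ← Real.exp_nat_mul]; congr 1; push_cast; ring
  rw [this, Real.sqrt_sq (Real.exp_pos _).le]

lemma functional_CF {lam : ℝ} (h : CF g f) (hf : SX f) : functional lam g = Ef lam f := by
  have e1 : integralM lam g (fun _ => 1) = Vf lam f := by
    refine setIntegral_congr_fun (Pool.Agent.H52R3.measurableSet_fund lam) fun x hx => ?_
    simp only
    rw [one_mul, sqrt_det_CF h (ne_zero_of_mem_fund hx)]
  have e2 : integralM lam g (sigma2 g) = S2f lam f := by
    refine setIntegral_congr_fun (Pool.Agent.H52R3.measurableSet_fund lam) fun x hx => ?_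
    have hx0 := ne_zero_of_mem_fund hx
    rw [sqrt_det_CF h hx0, sigma2_CF h hf hx0]
    have : Real.exp (4 * f x) * Real.exp (-(3 * f x)) = Real.exp (f x) := by
      rw [← Real.exp_add]; congr 1; ring
    linear_combination (s2 f x) * this
  have e3 : integralM lam g (sigma1 g) = S1f lam f := by
    refine setIntegral_congr_fun (Pool.Agent.H52R3.measurableSet_fund lam) fun x hx => ?_
    have hx0 := ne_zero_of_mem_fund hx
    rw [sqrt_det_CF h hx0, sigma1_CF h hf hx0]
    have : Real.exp (2 * f x) * Real.exp (-(3 * f x)) = Real.exp (-(f x)) := by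
      rw [← Real.exp_add]; congr 1; ring
    linear_combination (s1 f x) * this
  rw [functional, e1, e2, e3, Ef]

lemma conf_CF (u : E3 → ℝ) : CF (conf u product) (fun y => u y + L y) := by
  intro y hy
  unfold conf product
  rw [smul_smul]
  congr 1
  have : Real.exp (-2 * (u y + L y)) = Real.exp (-2 * u y) * (Real.exp (L y) ^ 2)⁻¹ := by
    rw [← Real.exp_nat_mul, ← Real.exp_neg, ← Real.exp_add]; congr 1; push_cast; ring
  rw [this, Pool.Agent.H52R3.exp_L hy]

lemma product_CF : CF product L := by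
  intro y hy
  have := conf_CF (fun _ => 0) y hy
  simpa [conf] using this

lemma s1_L_pos {x : E3} (hx : x ≠ 0) : 0 < s1 L x := by
  have hs := Pool.Agent.H52R3.nsq x
  have hN : 0 < ‖x‖ ^ 2 := pow_pos (norm_pos_iff.2 hx) 2
  have : s1 L x = 1 / (2 * ‖x‖ ^ 2) := by
    simp only [s1, lap, gdot, Pool.Agent.H52R3.pd_L _ hx, Pool.Agent.H52R3.pd_pd_L _ _ hx, if_true]
    have h4 : ‖x‖ ^ 4 = (‖x‖ ^ 2) ^ 2 := by ring
    rw [h4]
    generalize ‖x‖ ^ 2 = N at *
    have hNne : N ≠ 0 := hN.ne'
    field_simp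
    rw [hs]; ring
  rw [this]; positivity

lemma scalar_product_pos {x : E3} (hx : x ≠ 0) : 0 < scalar product x := by
  rw [scalar_CF product_CF Pool.Agent.H52R3.SX_L hx]
  have h1 := s1_L_pos hx
  unfold s1 at h1
  have h2 := Real.exp_pos (2 * L x)
  have h3 : 0 < 4 * lap L x - 2 * gdot L L x := by linarith
  positivity

end lemmas

open Pool.Agent.H52R3 in
/-- **Theorem (negative answer to Q1).** For every `lam > 1` let `M = (ℝ³ ∖ {0}) / (x ∼ lam x)`, a
closed 3-manifold diffeomorphic to `S² × S¹`, and let `g₀ = |x|⁻² |dx|²` be its product metric,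
which has positive scalar curvature. Then the class `𝒞₁([g₀])` is nonempty, `ℰ` is bounded above on
it, and every metric `g ∈ 𝒞₁([g₀])` has `ℰ(g) < Ỹ([g₀])`: the supremum `Ỹ([g₀])` is not
achieved. -/
theorem result (lam : ℝ) (hlam : 1 < lam) :
    IsMetricOnM lam product ∧ (∀ x ≠ 0, 0 < scalar product x) ∧
    (classC1 lam product).Nonempty ∧ BddAbove (functional lam '' classC1 lam product) ∧
    ∀ g ∈ classC1 lam product, functional lam g < Ytilde lam product := by
  have hl0 : 0 < lam := by linarith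
  have hbdd : BddAbove (functional lam '' classC1 lam product) := by
    refine ⟨0, ?_⟩
    rintro _ ⟨g, ⟨u, hu, rfl, hg⟩, rfl⟩
    have hS : SX (fun y => u y + L y) := SX.add hu.smooth SX_L
    have hq : QI lam (fun y => u y + L y) := fun x hx => by
      change u (lam • x) + L (lam • x) = u x + L x + Real.log lam
      rw [hu.invariant x hx, QI_L hl0 x hx]; ring
    have hs : ∀ x ≠ 0, 0 < s1 (fun y => u y + L y) x := by
      intro x hx
      have := hg x hx
      rw [sigma1_CF (conf_CF u) hS hx] at this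
      exact (mul_pos_iff_of_pos_left (Real.exp_pos _)).1 this
    rw [functional_CF (conf_CF u) hS, Ef]
    exact div_nonpos_of_nonpos_of_nonneg
      (mul_nonpos_of_nonneg_of_nonpos (Vf_pos hlam hS).le (S2f_neg hlam hS hq hs).le)
      (sq_nonneg _)
  refine ⟨⟨?_, ?_, ?_⟩, fun x hx => scalar_product_pos hx, ?_, hbdd, ?_⟩
  · intro i j
    have h1 : SX (fun x : E3 => (1 : ℝ) / ‖x‖ ^ 2) :=
      (SX.const 1).div SX_nsq (fun x hx => pow_ne_zero 2 (norm_ne_zero_iff.2 hx))
    have h2 : SX (fun x : E3 => (1 : ℝ) / ‖x‖ ^ 2 * (1 : Matrix (Fin 3) (Fin 3) ℝ) i j) :=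
      h1.mul (SX.const _)
    refine ContDiffOn.congr h2 (fun x _ => ?_)
    simp [product]
  · intro x hx
    have hN : 0 < (‖x‖ ^ 2)⁻¹ := inv_pos.2 (pow_pos (norm_pos_iff.2 hx) 2)
    unfold product
    exact Matrix.PosDef.one.smul hN
  · intro x hx
    unfold product
    rw [smul_smul, norm_smul, Real.norm_of_nonneg hl0.le]
    congr 1
    have : ‖x‖ ≠ 0 := norm_ne_zero_iff.2 hx
    field_simp
  · refine ⟨conf (fun _ => 0) product, fun _ => 0, ⟨contDiffOn_const, fun _ _ => rfl⟩, rfl, ?_⟩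
    intro x hx
    have hS : SX (fun y => (0 : ℝ) + L y) := SX.add (SX.const 0) SX_L
    rw [sigma1_CF (conf_CF fun _ => 0) hS hx]
    have : (fun y => (0 : ℝ) + L y) = L := by funext y; simp
    rw [this]
    exact mul_pos (Real.exp_pos _) (s1_L_pos hx)
  · rintro g ⟨u, hu, rfl, hg⟩
    have hS : SX (fun y => u y + L y) := SX.add hu.smooth SX_L
    have hs : ∀ x ≠ 0, 0 < s1 (fun y => u y + L y) x := by
      intro x hx
      have := hg x hx
      rw [sigma1_CF (conf_CF u) hS hx] at this
      exact (mul_pos_iff_of_pos_left (Real.exp_pos _)).1 this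
    obtain ⟨v, hv1, hv2, hv3, hv4⟩ := not_max hlam hu.smooth hu.invariant hs
    have hSv : SX (fun y => v y + L y) := SX.add hv1 SX_L
    have hmem : conf v product ∈ classC1 lam product := by
      refine ⟨v, ⟨hv1, hv2⟩, rfl, fun x hx => ?_⟩
      rw [sigma1_CF (conf_CF v) hSv hx]
      exact mul_pos (Real.exp_pos _) (hv3 x hx)
    have hle : functional lam (conf v product) ≤ Ytilde lam product :=
      le_csSup hbdd (mem_image_of_mem _ hmem)
    rw [functional_CF (conf_CF v) hSv] at hle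
    rw [functional_CF (conf_CF u) hS]
    exact lt_of_lt_of_le hv4 hle

end Pool.Agent.Results.MP_73f72c_gt.NotAttained
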